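import Mathlib

/-! # A geometric sum, used by rows of the board xpm_modules -/

set_option autoImplicit false

open Finset

namespace Pool.Agent.H19.XP

lemma sum_eighth {α : Type} (E : Finset α) (s : α → ℕ) (m : ℕ)
    (h : ∀ r, (E.filter fun a => s a = r).card ≤ 2 ^ r) (hm : ∀ a ∈ E, m ≤ s a) :
    ∑ a ∈ E, (1 / 8 : ℝ) ^ s a ≤ 4 / 3 * (1 / 4) ^ m := by
  classical
  have h1 := Finset.sum_comp (s := E) (fun r : ℕ => (1 / 8 : ℝ) ^ r) s
  rw [h1]
  have h2 : ∀ r ∈ E.image s, #{a ∈ E | s a = r} • (1 / 8 : ℝ) ^ r ≤ (1 / 4) ^ r := by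
    intro r _
    rw [nsmul_eq_mul]
    have h3 : ((#{a ∈ E | s a = r} : ℕ) : ℝ) ≤ 2 ^ r := by exact_mod_cast h r
    calc ((#{a ∈ E | s a = r} : ℕ) : ℝ) * (1 / 8 : ℝ) ^ r ≤ 2 ^ r * (1 / 8 : ℝ) ^ r :=
          mul_le_mul_of_nonneg_right h3 (by positivity)
      _ = (1 / 4) ^ r := by
          rw [← mul_pow]
          norm_num
  refine (Finset.sum_le_sum h2).trans ?_
  obtain ⟨M, hM⟩ : ∃ M, ∀ r ∈ E.image s, r < M := by
    obtain ⟨M, hM⟩ := (E.image s).bddAbove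
    exact ⟨M + 1, fun r hr => Nat.lt_succ_of_le (hM hr)⟩
  have h4 : E.image s ⊆ Ico m M := by
    intro r hr
    rw [mem_Ico]
    refine ⟨?_, hM r hr⟩
    obtain ⟨a, ha, rfl⟩ := Finset.mem_image.mp hr
    exact hm a ha
  refine (Finset.sum_le_sum_of_subset_of_nonneg h4 fun r _ _ => by positivity).trans ?_
  have h5 := geom_sum_Ico_le_of_lt_one (x := (1 / 4 : ℝ)) (m := m) (n := M) (by norm_num)
    (by norm_num)
  refine h5.trans (le_of_eq ?_)
  ring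

end Pool.Agent.H19.XP
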