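import Pool.Agent.H66.XP.TH
import Pool.Agent.H66.IP.TC
import Pool.Agent.H19.XP.XPB

/-! # Row HYB of the board xpm_modules: the blocks of large scale -/

set_option autoImplicit false

namespace Pool.Agent.H19.XP

open Finset Pool.Agent.H6.NB Pool.Agent.H70.OQ Pool.Agent.H70.EH Pool.Agent.H70.EI Pool.Agent.H78.XQ
open Pool.Agent.H66.IP (Local ins sp dm IsZ scl)
open Pool.Agent.H66.IQ Pool.Agent.H66.AV Pool.Agent.H66.XP

lemma ag_equiv {q l n : ℕ} (K : Mk l n) : Equivalence (Ag (q := q) K) where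
  refl _ := ⟨fun _ _ => rfl, fun _ _ => rfl⟩
  symm h := ⟨fun u hu => (h.1 u hu).symm, fun z hz => (h.2 z hz).symm⟩
  trans h h' := ⟨fun u hu => (h'.1 u hu).trans (h.1 u hu), fun z hz => (h'.2 z hz).trans (h.2 z hz)⟩

theorem pf_HYB (hHYX : T_HYX) (hMSX : T_MSX) (hUNI : Pool.Agent.H66.XP.T_UNI)
    (hMKX : T_MKX) (hCNX : T_CNX) (hSPF : Pool.Agent.H66.IP.T_SPF) :
    Pool.Agent.H66.XP.T_HYB := by
  classical
  intro V E O hZ n g Φ hn hΦ
  have hSz := (hSPF (lo V)).2.2.1
  have hms : ∀ (p : {a // a ∈ E}) (b : Bool) (K : Mp V p.1) (B : Cp V p.1), Sm V p.1 K →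
      (∀ c, 0 ≤ mXp V p.1 b K B c) ∧ ∑ c, mXp V p.1 b K B c ≤ 1 := by
    intro p b K B hK
    obtain ⟨e1, e2, -⟩ := hMSX _ _ _ _ _ (hSz p.1) b K B hK.1 hK.2
    exact ⟨e1, e2⟩
  have hSm : ∀ (P B : ∀ p : {a // a ∈ E}, Cp V p.1) (p : {a // a ∈ E}),
      Sm V p.1 (msk V E O g P B p.1) := fun P B p => (hMKX V E O hZ g P B).1 p.1
  have key := hHYX {a // a ∈ E} (fun p => Cp V p.1) (fun p => Mp V p.1)
    (fun p => 3 * scl (lo V) p.1)
    (fun p b K B c => if Sm V p.1 K then mXp V p.1 b K B c else 0)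
    (fun p K B c => m0Xp V p.1 K B c) (fun p K B c => Ag K B c)
    (fun P B p => an V E O g P B p.1) (fun P B p => msk V E O g P B p.1) n Φ
    (fun p => (1 / 8) ^ scl (lo V) p.1)
    (fun p b K B c => by
      show 0 ≤ if Sm V p.1 K then mXp V p.1 b K B c else 0
      split_ifs with h
      · exact (hms p b K B h).1 c
      · exact le_rfl)
    (fun P B p => by
      show ∑ c, (if Sm V p.1 (msk V E O g P B p.1) then
        mXp V p.1 (an V E O g P B p.1) (msk V E O g P B p.1) (B p) c else 0) ≤ 1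
      simp only [if_pos (hSm P B p)]
      exact (hms p _ _ _ (hSm P B p)).2)
    (fun p K => ag_equiv K)
    (fun p K B c => (hUNI _ _ _ K B B c).2)
    (fun p b K B B' c h => by
      show (if Sm V p.1 K then mXp V p.1 b K B c else 0) =
        if Sm V p.1 K then mXp V p.1 b K B' c else 0
      have h1 : mXp V p.1 b K B c = mXp V p.1 b K B' c := ((hUNI _ _ _ K B B' c).1 h).2 _ b
      rw [h1])
    (fun P B i j c h => by
      obtain ⟨e1, -, e3⟩ := (hMKX V E O hZ g P B).2.1 i.1 j c (by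
        have h' : 3 * scl (lo V) i.1 ≤ 3 * scl (lo V) j.1 := h
        omega)
      exact ⟨e1, e3⟩)
    (fun P B j B' h => by
      obtain ⟨e1, e2⟩ := (hMKX V E O hZ g P B).2.2 j B' h
      constructor
      · funext p
        exact (e1 p.1 p.2).1
      · funext p
        exact e2 p.1)
    (fun p => by positivity)
    (fun P B j hj => by
      have h1 := hΦ P j.1 j.2 (an V E O g P B j.1) (msk V E O g P B j.1) (B j)
        (Nat.succ_le_of_lt hj) (hSm P B j)
      have h2 : ∀ c : Cp V j.1, (if Sm V j.1 (msk V E O g P B j.1) then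
          mXp V j.1 (an V E O g P B j.1) (msk V E O g P B j.1) (B j) c else 0) =
          mXp V j.1 (an V E O g P B j.1) (msk V E O g P B j.1) (B j) c :=
        fun c => if_pos (hSm P B j)
      show |∑ c, (if Sm V j.1 (msk V E O g P B j.1) then
          mXp V j.1 (an V E O g P B j.1) (msk V E O g P B j.1) (B j) c else 0) *
            Φ (Function.update P j c) - ∑ c, m0Xp V j.1 (msk V E O g P B j.1) (B j) c *
            Φ (Function.update P j c)| ≤ _
      simp only [h2]
      exact h1)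
  have hY : ∀ B P, wY V E O g B P = ∏ p : {a // a ∈ E},
      (if Sm V p.1 (msk V E O g P B p.1) then
        mXp V p.1 (an V E O g P B p.1) (msk V E O g P B p.1) (B p) (P p) else 0) := by
    intro B P
    unfold wY lwX
    refine Finset.prod_congr rfl fun p _ => ?_
    rw [if_pos (hSm P B p)]
  have hX : ∀ B P, wX V E O n g B P = ∏ p : {a // a ∈ E}, (if 3 * scl (lo V) p.1 ≤ n then
      (if Sm V p.1 (msk V E O g P B p.1) then
        mXp V p.1 (an V E O g P B p.1) (msk V E O g P B p.1) (B p) (P p) else 0) else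
      @ite ℝ (P p = B p) (Classical.propDecidable _) 1 0) := by
    intro B P
    unfold wX lwX
    refine Finset.prod_congr rfl fun p _ => ?_
    rw [if_pos (hSm P B p)]
    by_cases h1 : 3 * scl (lo V) p.1 ≤ n
    · rw [if_pos h1, if_pos h1]
    · rw [if_neg h1, if_neg h1]
      by_cases h2 : P p = B p
      · rw [if_pos h2, if_pos h2]
      · rw [if_neg h2, if_neg h2]
  have hsum : ∑ i ∈ univ.filter (fun i : {a // a ∈ E} => n < 3 * scl (lo V) i.1),
      (1 / 8 : ℝ) ^ scl (lo V) i.1 ≤ (1 / 2) ^ (n / 2) := by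
    rw [Finset.sum_filter,
      Finset.sum_coe_sort E (fun p => if n < 3 * scl (lo V) p then
        (1 / 8 : ℝ) ^ scl (lo V) p else 0), ← Finset.sum_filter]
    have h1 := sum_eighth (E.filter fun p => n < 3 * scl (lo V) p) (scl (lo V)) (n / 3 + 1)
      (fun r => (hCNX V (E.filter fun p => n < 3 * scl (lo V) p) r).2.1)
      (fun a ha => by
        have := (Finset.mem_filter.mp ha).2
        omega)
    refine h1.trans ?_
    have h2 : (4 : ℝ) / 3 * (1 / 4) ^ (n / 3 + 1) = 1 / 3 * (1 / 2) ^ (2 * (n / 3)) := by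
      rw [pow_succ, pow_mul]
      norm_num
      ring
    rw [h2]
    have h3 : (1 / 2 : ℝ) ^ (2 * (n / 3)) ≤ (1 / 2) ^ (n / 2) :=
      pow_le_pow_of_le_one (by norm_num) (by norm_num) (by omega)
    have h4 : (0 : ℝ) ≤ (1 / 2) ^ (2 * (n / 3)) := by positivity
    linarith
  have hnC : (0 : ℝ) ≤ nC V E := by
    unfold nC
    positivity
  have hc : (Fintype.card (∀ p : {a // a ∈ E}, Cp V p.1) : ℝ) = nC V E := by
    unfold nC
    rfl
  rw [hc] at key
  simp only [hY, hX]
  exact key.trans (mul_le_mul_of_nonneg_left hsum hnC)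

end Pool.Agent.H19.XP
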