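import Pool.Agent.H66.XP.TH
import Pool.Agent.H66.IP.TC
import Pool.Agent.H19.XP.XPB

/-! # Row WMX of the board xpm_modules: the masses of the weights -/

set_option autoImplicit false

namespace Pool.Agent.H19.XP

open Finset Pool.Agent.H6.NB Pool.Agent.H70.OQ Pool.Agent.H70.EH Pool.Agent.H70.EI Pool.Agent.H78.XQ
open Pool.Agent.H66.IP (Local ins sp dm IsZ scl)
open Pool.Agent.H66.IQ Pool.Agent.H66.AV Pool.Agent.H66.XP

/-- masses of the distribution of one block -/
lemma lwX_mass (hMSX : T_MSX) (hMKX : T_MKX) (hSPF : Pool.Agent.H66.IP.T_SPF) (V : ℕ → Exq)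
    (E : Finset (ℕ × List Bool))
    (O : (∀ p : {a // a ∈ E}, Cp V p.1) → (List Bool → Bool) → List Bool → Bool)
    (hZ : IsZ (dm (lo V)) E O) (g : List Bool → Bool) (B P : ∀ p : {a // a ∈ E}, Cp V p.1)
    (p : {a // a ∈ E}) : (∀ c, 0 ≤ lwX V E O g B P p c) ∧ ∑ c, lwX V E O g B P p c ≤ 1 ∧
      1 - 1 / 2 ^ (sp (lo V) p.1).length ≤ ∑ c, lwX V E O g B P p c := by
  have hSz := (hSPF (lo V)).2.2.1 p.1
  have hSm := (hMKX V E O hZ g P B).1 p.1
  exact hMSX _ _ _ _ _ hSz (an V E O g P B p.1) (msk V E O g P B p.1) (B p) hSm.1 hSm.2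

/-- the distribution of a block does not depend on the blocks of larger or equal scale -/
lemma lwX_inv (hMKX : T_MKX) (V : ℕ → Exq) (E : Finset (ℕ × List Bool))
    (O : (∀ p : {a // a ∈ E}, Cp V p.1) → (List Bool → Bool) → List Bool → Bool)
    (hZ : IsZ (dm (lo V)) E O) (g : List Bool → Bool) (B P : ∀ p : {a // a ∈ E}, Cp V p.1)
    (i j : {a // a ∈ E}) (c : Cp V j.1) (h : 3 * scl (lo V) i.1 ≤ 3 * scl (lo V) j.1) :
    lwX V E O g B (Function.update P j c) i = lwX V E O g B P i := by
  obtain ⟨h1, -, h3⟩ := (hMKX V E O hZ g P B).2.1 i.1 j c (by omega)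
  funext c'
  unfold lwX
  rw [h1, h3]

/-- the sum of the failures -/
lemma sum_len (hCNX : T_CNX) (hSPF : Pool.Agent.H66.IP.T_SPF) (V : ℕ → Exq)
    (E : Finset (ℕ × List Bool)) :
    ∑ p : {a // a ∈ E}, (1 : ℝ) / 2 ^ (sp (lo V) p.1).length ≤ 1 / 4 := by
  have h1 : ∀ p : {a // a ∈ E}, (1 : ℝ) / 2 ^ (sp (lo V) p.1).length ≤
      (1 / 8) ^ scl (lo V) p.1 := by
    intro p
    obtain ⟨h20, hlen, -⟩ := (hSPF (lo V)).2.1 p.1
    obtain ⟨r, hr⟩ : ∃ r, r = scl (lo V) p.1 := ⟨_, rfl⟩
    rw [← hr] at h20 hlen ⊢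
    have h2 : 3 * r ≤ (sp (lo V) p.1).length := by
      refine le_trans ?_ hlen
      have : r ≤ r ^ 3 := Nat.le_self_pow (by norm_num) r
      omega
    have h3 : ((1 : ℝ) / 8) ^ r = 1 / 2 ^ (3 * r) := by
      rw [pow_mul, one_div_pow]
      norm_num
    rw [h3]
    exact one_div_le_one_div_of_le (by positivity) (pow_le_pow_right₀ (by norm_num) h2)
  refine (Finset.sum_le_sum fun p _ => h1 p).trans ?_
  rw [Finset.sum_coe_sort E (fun p => (1 / 8 : ℝ) ^ scl (lo V) p)]
  refine (sum_eighth E (scl (lo V)) 20 (fun r => (hCNX V E r).2.1)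
    fun a _ => (hCNX V E 0).2.2 a).trans ?_
  norm_num

theorem pf_WMX (hMSX : T_MSX) (hHYM : T_HYM) (hMKX : T_MKX) (hCNX : T_CNX)
    (hSPF : Pool.Agent.H66.IP.T_SPF) : T_WMX := by
  classical
  intro V E O hZ g B
  have hm := lwX_mass hMSX hMKX hSPF V E O hZ g B
  have hi := fun P i j c h => lwX_inv hMKX V E O hZ g B P i j c h
  obtain ⟨h1, h2, h3⟩ := hHYM {a // a ∈ E} (fun p => Cp V p.1) (fun p => 3 * scl (lo V) p.1)
    (fun P p c => lwX V E O g B P p c) (fun P p c => (hm P p).1 c) (fun P p => (hm P p).2.1)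
    (fun P i j c h => hi P i j c h)
  refine ⟨fun P => ⟨?_, fun n => ?_⟩, h1, fun n => ?_, ?_, ?_⟩
  · unfold wY
    exact Finset.prod_nonneg fun p _ => (hm P p).1 _
  · unfold wX
    refine Finset.prod_nonneg fun p _ => ?_
    split_ifs
    · exact (hm P p).1 _
    · exact zero_le_one
    · exact le_rfl
  · have h4 := (hHYM {a // a ∈ E} (fun p => Cp V p.1) (fun p => 3 * scl (lo V) p.1)
      (fun P p c => if 3 * scl (lo V) p.1 ≤ n then lwX V E O g B P p c else
        if c = B p then 1 else 0) (fun P p c => by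
          show 0 ≤ if 3 * scl (lo V) p.1 ≤ n then lwX V E O g B P p c else
            if c = B p then 1 else 0
          split_ifs
          · exact (hm P p).1 _
          · exact zero_le_one
          · exact le_rfl) (fun P p => by
          show ∑ c, (if 3 * scl (lo V) p.1 ≤ n then lwX V E O g B P p c else
            if c = B p then 1 else 0) ≤ 1
          by_cases h5 : 3 * scl (lo V) p.1 ≤ n
          · simp only [if_pos h5]
            exact (hm P p).2.1
          · simp only [if_neg h5]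
            rw [Finset.sum_ite_eq' univ (B p) fun _ => (1 : ℝ), if_pos (Finset.mem_univ _)])
        (fun P i j c h => by
          funext c'
          show (if 3 * scl (lo V) i.1 ≤ n then lwX V E O g B (Function.update P j c) i c' else
            if c' = B i then 1 else 0) = if 3 * scl (lo V) i.1 ≤ n then lwX V E O g B P i c' else
            if c' = B i then 1 else 0
          rw [hi P i j c h])).1
    refine le_trans (le_of_eq (Finset.sum_congr rfl fun P _ => ?_)) h4
    unfold wX
    refine Finset.prod_congr rfl fun p _ => ?_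
    split_ifs <;> rfl
  · have h5 := h2 ⟨B⟩ (fun p => 1 / 2 ^ (sp (lo V) p.1).length)
      (fun p => ⟨by positivity, by
        rw [div_le_one (by positivity)]
        exact one_le_pow₀ (by norm_num)⟩) (fun P p => (hm P p).2.2)
    have h6 := sum_len hCNX hSPF V E
    have h7 : 1 - 1 / 4 ≤ ∑ P, wY V E O g B P :=
      le_trans (by linarith) h5
    linarith
  · intro n φ hφ hinv
    refine (h3 n B φ hφ fun P j c h => hinv P j c h).trans (le_of_eq
      (Finset.sum_congr rfl fun P _ => ?_))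
    congr 1
    unfold wX
    refine Finset.prod_congr rfl fun p _ => ?_
    split_ifs <;> rfl

end Pool.Agent.H19.XP
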